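import Pool.Agent.R287.RAk

/-! Reducing Agler subspaces for inner functions on the bidisk (MP_f7d35b_an, Q1, full answer). -/

set_option autoImplicit false

namespace Pool.Agent.Results.MP_f7d35b_an.ReducingAglerSubspaces

open Pool.Agent.R287.RA

/-- For every inner function `θ` on the bidisk, at least one of the compressed shifts `S_{z₁}` and
`S_{z₂}` has reducing Agler subspaces if and only if `θ(z) = φ(z₁) ψ(z₂)` with one-variable inner
functions `φ` and `ψ`. -/
theorem result (θ : ℂ × ℂ → ℂ) (hθ : Inner2 θ) :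
    (HasRed θ (1, 0) ∨ HasRed θ (0, 1)) ↔
      ∃ φ ψ : ℂ → ℂ, Inner1 φ ∧ Inner1 ψ ∧ ∀ z ∈ D2, θ z = φ z.1 * ψ z.2 :=
  final θ hθ

end Pool.Agent.Results.MP_f7d35b_an.ReducingAglerSubspaces
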